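import Pool.Agent.Q161.MgS

set_option autoImplicit false

/-!
# MP_1c795d_co: the intersection lattice determines the magnitude homology

If the intersection lattices of two central real arrangements (possibly in different dimensions)
are isomorphic as posets, then all their magnitude homology groups are isomorphic.
-/

namespace Pool.Agent.Results.MP_1c795d_co.LatticeDetermines

open Q138.TopeMag Q138.MagHom Q161.Mg

/-- If `L(A) ≅ L(A')` as posets, then `MH_{k,l}(A) ≅ MH_{k,l}(A')` as abelian groups for all
`k, l`. -/
theorem result (d d' : ℕ) (A : Arrangement d) (A' : Arrangement d')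
    (h : Nonempty (IntersectionLattice A ≃o IntersectionLattice A')) (k l : ℕ) :
    Nonempty (MH A.topeGraph k l ≃+ MH A'.topeGraph k l) := by
  obtain ⟨φ⟩ := h
  have ψ : Inters A ≃o Inters A' := φ.dual
  exact mh_iso A ψ k l

end Pool.Agent.Results.MP_1c795d_co.LatticeDetermines
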